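import Pool.Agent.TH462.CDC.B0
import Pool.Agent.TH462.CDC.B1
import Pool.Agent.TH462.CDC.B2
import Pool.Agent.TH462.CDC.B3
import Pool.Agent.TH462.CDC.B4
import Pool.Agent.TH462.CDC.B5
import Pool.Agent.TH462.CDC.B6
import Pool.Agent.TH462.CDC.B7
import Pool.Agent.TH462.CDC.B8
import Pool.Agent.TH462.CDC.B9
import Pool.Agent.TH462.CDC.B10
import Pool.Agent.TH462.CDC.B11
import Pool.Agent.TH462.CDC.B12
import Pool.Agent.TH462.CDC.B13
import Pool.Agent.TH462.CDC.B14
import Pool.Agent.TH462.CDC.B15

set_option autoImplicit false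

namespace Pool.Agent.TH462.CDC

theorem runB_all : ∀ xu < 16, ∀ xp < 16, ∀ xn < 16, ∀ xc < 16, ∃ al m g m2 m3,
    chkB xu xp xn xc al m g m2 m3 = true := by
  intro xu hu
  interval_cases xu
  · exact runB_spec runB0
  · exact runB_spec runB1
  · exact runB_spec runB2
  · exact runB_spec runB3
  · exact runB_spec runB4
  · exact runB_spec runB5
  · exact runB_spec runB6
  · exact runB_spec runB7
  · exact runB_spec runB8
  · exact runB_spec runB9
  · exact runB_spec runB10
  · exact runB_spec runB11
  · exact runB_spec runB12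
  · exact runB_spec runB13
  · exact runB_spec runB14
  · exact runB_spec runB15

end Pool.Agent.TH462.CDC
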