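import Pool.Agent.TH462.CDC.C0
import Pool.Agent.TH462.CDC.C1
import Pool.Agent.TH462.CDC.C2
import Pool.Agent.TH462.CDC.C3
import Pool.Agent.TH462.CDC.C4
import Pool.Agent.TH462.CDC.C5
import Pool.Agent.TH462.CDC.C6
import Pool.Agent.TH462.CDC.C7
import Pool.Agent.TH462.CDC.C8
import Pool.Agent.TH462.CDC.C9
import Pool.Agent.TH462.CDC.C10
import Pool.Agent.TH462.CDC.C11
import Pool.Agent.TH462.CDC.C12
import Pool.Agent.TH462.CDC.C13
import Pool.Agent.TH462.CDC.C14
import Pool.Agent.TH462.CDC.C15

set_option autoImplicit false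

namespace Pool.Agent.TH462.CDC

theorem runC_all : ∀ xu < 16, ∀ xp < 16, ∀ xn < 16, ∀ xc < 16, ∃ al m g m2 m3,
    chkC xu xp xn xc al m g m2 m3 = true := by
  intro xu hu
  interval_cases xu
  · exact runC_spec runC0
  · exact runC_spec runC1
  · exact runC_spec runC2
  · exact runC_spec runC3
  · exact runC_spec runC4
  · exact runC_spec runC5
  · exact runC_spec runC6
  · exact runC_spec runC7
  · exact runC_spec runC8
  · exact runC_spec runC9
  · exact runC_spec runC10
  · exact runC_spec runC11
  · exact runC_spec runC12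
  · exact runC_spec runC13
  · exact runC_spec runC14
  · exact runC_spec runC15

end Pool.Agent.TH462.CDC
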