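import Pool.Agent.TH462.CDC.Grp

set_option autoImplicit false

namespace Pool.Agent.TH462.CDC

/-- the check for the configuration c3 -/
def chkC (xu xp xq xr al m g m2 m3 : ℕ) : Bool :=
  mem al && (mem m && (mem (Nat.xor al m) && (mem g && (mem (Nat.xor g m) &&
  (fce (Nat.xor xp (Nat.xor al m)) fun P => mem P &&
  (fce (Nat.xor xr (Nat.xor g m)) fun R => mem R && (mem m2 && (mem (Nat.xor m2 P) &&
  (fce (Nat.xor (Nat.xor xq g) (Nat.xor m2 P)) fun b3 => mem b3 && (mem m3 && (mem (Nat.xor m3 R) &&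
  (mem (Nat.xor m3 b3) &&
  (fce (Nat.xor (Nat.xor xu al) (Nat.xor m3 b3)) fun a2 => mem a2 && mem (Nat.xor a2 m2))))))))))))))

/-- decode five digits -/
def decC (xu xp xn xc v : ℕ) : Bool :=
  fce (Nat.land v 15) fun al => fce (Nat.land (Nat.shiftRight v 4) 15) fun m =>
  fce (Nat.land (Nat.shiftRight v 8) 15) fun g => fce (Nat.land (Nat.shiftRight v 12) 15) fun m2 =>
  fce (Nat.land (Nat.shiftRight v 16) 15) fun m3 => chkC xu xp xn xc al m g m2 m3

/-- one row of the table: 256 entries -/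
def rowC (T : ℕ) (xu xp : ℕ) : Bool :=
  all16 fun xn => all16 fun xc => fce (Nat.land (Nat.shiftRight T (Nat.mul 20 (Nat.add (Nat.mul 16 xn) xc))) 1048575) fun v =>
    decC xu xp xn xc v

/-- the whole table for one value of `xu`: 16 rows of 5120 bits -/
def runC (T : ℕ) (xu : ℕ) : Bool :=
  all16 fun xp => fce (Nat.mod (Nat.shiftRight T (Nat.mul 5120 xp)) (Nat.pow 2 5120)) fun r => rowC r xu xp

theorem runC_spec {T xu : ℕ} (h : runC T xu = true) :
    ∀ xp < 16, ∀ xn < 16, ∀ xc < 16, ∃ al m g m2 m3, chkC xu xp xn xc al m g m2 m3 = true := by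
  intro xp hp xn hn xc hc
  have h1 := all16_spec h xp hp
  rw [fce_eq] at h1
  have h3 := all16_spec (all16_spec h1 xn hn) xc hc
  simp only [fce_eq, decC] at h3
  exact ⟨_, _, _, _, _, h3⟩

end Pool.Agent.TH462.CDC
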