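import Pool.Agent.TH497.BF.Facts

set_option autoImplicit false

/-! # The group and the allowed values for cycle double covers by five even subgraphs -/

namespace Pool.Agent.TH462.CDC

open Finset

/-- the group `Z_2^4` -/
abbrev G : Type := Fin 4 → ZMod 2

/-- the five coordinates of an even vector of `Z_2^5` -/
def full (x : G) : Fin 5 → ZMod 2 := ![x 0, x 1, x 2, x 3, x 0 + x 1 + x 2 + x 3]

/-- exactly two of the five coordinates are one -/
def A5 (x : G) : Prop := (univ.filter (fun i => full x i = 1)).card = 2

instance (x : G) : Decidable (A5 x) := by unfold A5; infer_instance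

/-- the vector with a given code -/
def dec (n : ℕ) : G := fun i => if n.testBit i then 1 else 0

/-- the code of a vector -/
def cod (x : G) : ℕ := (x 0).val + 2 * (x 1).val + 4 * (x 2).val + 8 * (x 3).val

theorem dec_cod : ∀ x : G, dec (cod x) = x := by decide +kernel

theorem cod_lt : ∀ x : G, cod x < 16 := by decide +kernel

theorem dec_xor (a b : ℕ) : dec (Nat.xor a b) = dec a + dec b := by
  funext i
  have h : (Nat.xor a b).testBit i = (a.testBit i ^^ b.testBit i) := Nat.testBit_xor a b i
  simp only [dec, Pi.add_apply, h]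
  cases a.testBit i <;> cases b.testBit i <;> simp <;> decide

/-- the codes of the allowed values -/
def mem (n : ℕ) : Bool := Nat.beq (Nat.land (Nat.shiftRight 0x177e n) 1) 1

theorem mem_A5 {n : ℕ} (h : mem n = true) : A5 (dec n) := by
  by_cases hn : n < 16
  · revert h
    have : ∀ n : Fin 16, mem n = true → A5 (dec n) := by decide +kernel
    exact this ⟨n, hn⟩
  · exfalso
    have h1 : Nat.shiftRight 0x177e n = 0 := by
      have : (0x177e : ℕ) >>> n = 0 := by
        rw [Nat.shiftRight_eq_div_pow]
        apply Nat.div_eq_of_lt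
        calc (0x177e : ℕ) < 2 ^ 16 := by norm_num
          _ ≤ 2 ^ n := Nat.pow_le_pow_right (by norm_num) (by omega)
      exact this
    rw [mem, h1] at h
    exact absurd h (by decide)

theorem two (x : G) : x + x = 0 := by
  funext i
  exact CharTwo.add_self_eq_zero (x i)

theorem c2 : (2 : G) = 0 := by
  funext i
  rfl

/-- all numbers below 16 -/
def all16 (p : ℕ → Bool) : Bool :=
  p 0 && (p 1 && (p 2 && (p 3 && (p 4 && (p 5 && (p 6 && (p 7 && (p 8 && (p 9 && (p 10 && (p 11 &&
    (p 12 && (p 13 && (p 14 && p 15))))))))))))))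

theorem all16_spec {p : ℕ → Bool} (h : all16 p = true) : ∀ n < 16, p n = true := by
  unfold all16 at h
  simp only [Bool.and_eq_true] at h
  intro n hn
  obtain ⟨h0, h1, h2, h3, h4, h5, h6, h7, h8, h9, h10, h11, h12, h13, h14, h15⟩ := h
  interval_cases n <;> assumption

/-- evaluate the argument first -/
def fce (n : ℕ) (f : ℕ → Bool) : Bool := Nat.casesOn n (f 0) (fun k => f (Nat.succ k))

theorem fce_eq (n : ℕ) (f : ℕ → Bool) : fce n f = f n := by cases n <;> rfl

example (R : Type) [CommRing R] (h : (2:R) = 0) (a b c d x y : R) (h1 : a + b = c + d) (h2 : x + a = y) :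
   y + b = x + c + d := by grind

example (a b c d x y : G) (h1 : a + b = c + d) (h2 : x + a = y) :
   y + b = x + c + d := by
  have := c2
  grind

end Pool.Agent.TH462.CDC
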