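import Pool.Agent.TH462.CDC.Grp

set_option autoImplicit false

namespace Pool.Agent.TH462.CDC

open Finset Pool.Agent.TH676.A

/-- a digit times a bit -/
def sel (n i v : ℕ) : ℕ := Nat.mul (Nat.land (Nat.shiftRight n i) 1) v

/-- a linear map on codes -/
def linN (v0 v1 v2 v3 n : ℕ) : ℕ :=
  Nat.xor (Nat.xor (sel n 0 v0) (sel n 1 v1)) (Nat.xor (sel n 2 v2) (sel n 3 v3))

/-- a linear map -/
def lin (v : Fin 4 → G) : G →+ G where
  toFun x := ∑ i, x i • v i
  map_zero' := by simp
  map_add' x y := by simp [add_smul, sum_add_distrib]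

theorem sel_dec (n v : ℕ) (i : Fin 4) : dec (sel n i v) = dec n i • dec v := by
  unfold sel
  have h1 : Nat.land (Nat.shiftRight n i) 1 = (n.testBit i).toNat := by
    have h2 : Nat.land (Nat.shiftRight n i) 1 = (n >>> (i : ℕ)) % 2 := Nat.and_one_is_mod _
    rw [h2, Nat.shiftRight_eq_div_pow, Nat.testBit_eq_decide_div_mod_eq]
    have h3 := Nat.mod_two_eq_zero_or_one (n / 2 ^ (i : ℕ))
    rcases h3 with h | h <;> simp [h]
  rw [h1]
  have h4 : dec n i = if n.testBit i then 1 else 0 := rfl
  rw [h4]
  cases n.testBit i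
  · have : Nat.mul (false.toNat) v = 0 := Nat.zero_mul v
    rw [this]
    simp
    funext j
    simp [dec]
  · have : Nat.mul (true.toNat) v = v := Nat.one_mul v
    rw [this]
    simp

theorem linN_dec (v0 v1 v2 v3 n : ℕ) :
    dec (linN v0 v1 v2 v3 n) = lin ![dec v0, dec v1, dec v2, dec v3] (dec n) := by
  unfold linN
  rw [dec_xor, dec_xor, dec_xor]
  have h0 := sel_dec n v0 0
  have h1 := sel_dec n v1 1
  have h2 := sel_dec n v2 2
  have h3 := sel_dec n v3 3
  simp only [Fin.val_zero, Fin.val_one, Fin.val_two] at h0 h1 h2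
  have e3 : ((3 : Fin 4) : ℕ) = 3 := rfl
  rw [e3] at h3
  rw [h0, h1, h2, h3]
  show _ = ∑ i, (dec n) i • (![dec v0, dec v1, dec v2, dec v3] i)
  rw [Fin.sum_univ_four]
  simp [add_assoc]

/-- the ten allowed codes are mapped to allowed codes -/
def pres (v0 v1 v2 v3 : ℕ) : Bool :=
  all16 fun n => (!(mem n)) || mem (linN v0 v1 v2 v3 n)

theorem pres_spec {v0 v1 v2 v3 : ℕ} (h : pres v0 v1 v2 v3 = true)
    (hA : ∀ x : G, A5 x → mem (cod x) = true) (x : G) (hx : A5 x) :
    A5 (lin ![dec v0, dec v1, dec v2, dec v3] x) := by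
  have h1 := all16_spec h (cod x) (cod_lt x)
  rw [hA x hx] at h1
  have h2 : mem (linN v0 v1 v2 v3 (cod x)) = true := by simpa using h1
  have h3 := mem_A5 h2
  rwa [linN_dec, dec_cod] at h3

theorem A5_mem : ∀ x : G, A5 x → mem (cod x) = true := by decide +kernel

def chkH (a b v0 v1 v2 v3 w2 w3 : ℕ) : Bool :=
  pres v0 v1 v2 v3 && (pres a b w2 w3 && (Nat.beq (linN v0 v1 v2 v3 a) 1 && Nat.beq (linN v0 v1 v2 v3 b) 2))

def runH (T : ℕ) : Bool :=
  all16 fun a => all16 fun b => (!(mem a && (mem b && mem (Nat.xor a b)))) ||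
    fce (Nat.land (Nat.shiftRight T (Nat.mul 24 (Nat.add (Nat.mul 16 a) b))) 16777215) fun v =>
      chkH a b (Nat.land v 15) (Nat.land (Nat.shiftRight v 4) 15) (Nat.land (Nat.shiftRight v 8) 15)
        (Nat.land (Nat.shiftRight v 12) 15) (Nat.land (Nat.shiftRight v 16) 15) (Nat.land (Nat.shiftRight v 20) 15)

theorem runH_true : runH 0x8989ac8a89caa923a60000004598ac4698ca6532a6000000000000000000000000000000000000000000000000000000000000000000000000000000000000000000000000000000000000000000000000000000000000000000898a9c0000000000008c8c9ac92a36000000239a8c000000000000269c8a633a260000000000000000000000000000008a8ac90000008c8ca9000000ca2a63000000000000139ac8000000159ca8000000533a62000000000000000000000000a91395000000c91935ca195300000000000000000000000021128400000041182442184200000000000000000000000000000000000000000000000000000000000000000000000000000000000000000000000000000000000000000000000045a89c00000023a98c0000000000000000000000004cc89ac5a2362ac98aa3a32600000000000000000000000000000046a8c90000000000001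3a9c80000000000004cc8a9000000c6a26319c9a800000093a362000000000000000000000000653195000000000000000000212184000000c59135c6915300000000000081812482814200000000000000000000000000000000000026ac8915ac980000000000002aca8919ca98000000000000a6a62395a632000000000000000000000000000000000000633915000000412814000000a39315000000818214a69513000000848412000000000000000000000000000000000000000000533951422841000000000000939351828241959531848421000000000000000000000000000000000000000000000000000000000000000000000000000000000000000000000000000000000000 = true := by decide +kernel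

theorem hom1 (a b : G) (ha : A5 a) (hb : A5 b) (hab : A5 (a + b)) :
    (∃ σ : G →+ G, (∀ x, A5 x → A5 (σ x)) ∧ σ a = dec 1 ∧ σ b = dec 2) ∧
    ∃ σ : G →+ G, (∀ x, A5 x → A5 (σ x)) ∧ σ (dec 1) = a ∧ σ (dec 2) = b := by
  have h1 := all16_spec (all16_spec runH_true (cod a) (cod_lt a)) (cod b) (cod_lt b)
  rw [fce_eq] at h1
  have h2 : mem (Nat.xor (cod a) (cod b)) = true := by
    have h3 := A5_mem _ hab
    have h4 : cod (a + b) = Nat.xor (cod a) (cod b) := by
      have : ∀ a b : G, cod (a + b) = Nat.xor (cod a) (cod b) := by decide +kernel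
      exact this a b
    rwa [h4] at h3
  rw [A5_mem a ha, A5_mem b hb, h2] at h1
  simp only [Bool.and_self, Bool.not_true, Bool.false_or] at h1
  simp only [chkH, Bool.and_eq_true] at h1
  obtain ⟨p1, p2, p3, p4⟩ := h1
  refine ⟨⟨lin _, pres_spec p1 A5_mem, ?_, ?_⟩, ⟨lin _, pres_spec p2 A5_mem, ?_, ?_⟩⟩
  · have := Nat.eq_of_beq_eq_true p3
    have h5 := linN_dec _ _ _ _ _ ▸ congrArg dec this
    rwa [dec_cod] at h5
  · have := Nat.eq_of_beq_eq_true p4
    have h5 := linN_dec _ _ _ _ _ ▸ congrArg dec this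
    rwa [dec_cod] at h5
  · show ∑ i, (dec 1) i • (![dec (cod a), dec (cod b), dec _, dec _] i) = a
    rw [Fin.sum_univ_four, dec_cod]
    have e0 : dec 1 0 = 1 := rfl
    have e1 : dec 1 1 = 0 := rfl
    have e2 : dec 1 2 = 0 := rfl
    have e3 : dec 1 3 = 0 := rfl
    rw [e0, e1, e2, e3]
    simp
  · show ∑ i, (dec 2) i • (![dec (cod a), dec (cod b), dec _, dec _] i) = b
    rw [Fin.sum_univ_four, dec_cod b]
    have e0 : dec 2 0 = 0 := rfl
    have e1 : dec 2 1 = 1 := rfl
    have e2 : dec 2 2 = 0 := rfl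
    have e3 : dec 2 3 = 0 := rfl
    rw [e0, e1, e2, e3]
    simp

theorem alg5 : Alg A5 where
  two := two
  zero := by decide +kernel
  hom := by
    intro a b a' b' ha hb hab ha' hb' hab'
    obtain ⟨⟨s, s1, s2, s3⟩, _⟩ := hom1 a b ha hb hab
    obtain ⟨_, ⟨t, t1, t2, t3⟩⟩ := hom1 a' b' ha' hb' hab'
    exact ⟨t.comp s, fun x hx => t1 _ (s1 x hx), by simp [s2, t2], by simp [s3, t3]⟩

end Pool.Agent.TH462.CDC
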