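import Pool.Agent.TH462.CDC.Hom
import Pool.Agent.TH462.CDC.TabS
import Pool.Agent.TH462.CDC.TabA
import Pool.Agent.TH462.CDC.AllB
import Pool.Agent.TH462.CDC.AllC

set_option autoImplicit false

/-! # The finite facts for cycle double covers by five even subgraphs -/

namespace Pool.Agent.TH462.CDC

open Finset Pool.Agent.TH676.A Pool.Agent.TH497.BF

theorem solS (x0 x1 x2 : G) : ∃ al m g : G, A5 al ∧ A5 (x0 + al) ∧ A5 m ∧ A5 (al + m) ∧ A5 g ∧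
    A5 (g + m) ∧ A5 (x2 + g) ∧ A5 (x1 + al + m) ∧ A5 (x0 + al + x2 + g) ∧
    A5 (x0 + al + x2 + g + (x1 + al + m)) := by
  obtain ⟨al, m, g, h⟩ := runS_all _ (cod_lt x0) _ (cod_lt x1) _ (cod_lt x2)
  simp only [chkS, Bool.and_eq_true] at h
  obtain ⟨h1, h2, h3, h4, h5, h6, h7, h8, h9, h10⟩ := h
  refine ⟨dec al, dec m, dec g, ?_, ?_, ?_, ?_, ?_, ?_, ?_, ?_, ?_, ?_⟩
  · simpa only [dec_xor, dec_cod] using mem_A5 h1
  · simpa only [dec_xor, dec_cod] using mem_A5 h2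
  · simpa only [dec_xor, dec_cod] using mem_A5 h3
  · simpa only [dec_xor, dec_cod] using mem_A5 h4
  · simpa only [dec_xor, dec_cod] using mem_A5 h5
  · simpa only [dec_xor, dec_cod] using mem_A5 h6
  · simpa only [dec_xor, dec_cod] using mem_A5 h7
  · simpa only [dec_xor, dec_cod] using mem_A5 h8
  · simpa only [dec_xor, dec_cod] using mem_A5 h9
  · simpa only [dec_xor, dec_cod] using mem_A5 h10

theorem solA (x0 x1 x2 : G) : ∃ w io al m n : G, n = x2 + (al + m) + (x1 + (w + io)) ∧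
    A5 w ∧ A5 io ∧ A5 (w + io) ∧ A5 (x0 + io) ∧
    A5 (x1 + (w + io)) ∧ A5 al ∧ A5 (w + al) ∧ A5 m ∧ A5 (al + m) ∧ A5 (x0 + io + m) ∧
    A5 n ∧ A5 (w + al + n) ∧ A5 (x1 + (w + io) + n) := by
  obtain ⟨w, io, al, m, h⟩ := runA_all _ (cod_lt x0) _ (cod_lt x1) _ (cod_lt x2)
  simp only [chkA, Bool.and_eq_true, fce_eq] at h
  obtain ⟨h1, h2, h3, h4, h5, h6, h7, h8, h9, h10, h11, h12, h13⟩ := h
  refine ⟨dec w, dec io, dec al, dec m, _, rfl, ?_, ?_, ?_, ?_, ?_, ?_, ?_, ?_, ?_, ?_, ?_, ?_, ?_⟩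
  · simpa only [dec_xor, dec_cod] using mem_A5 h1
  · simpa only [dec_xor, dec_cod] using mem_A5 h2
  · simpa only [dec_xor, dec_cod] using mem_A5 h3
  · simpa only [dec_xor, dec_cod] using mem_A5 h4
  · simpa only [dec_xor, dec_cod] using mem_A5 h5
  · simpa only [dec_xor, dec_cod] using mem_A5 h6
  · simpa only [dec_xor, dec_cod] using mem_A5 h7
  · simpa only [dec_xor, dec_cod] using mem_A5 h8
  · simpa only [dec_xor, dec_cod] using mem_A5 h9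
  · simpa only [dec_xor, dec_cod] using mem_A5 h10
  · simpa only [dec_xor, dec_cod] using mem_A5 h11
  · simpa only [dec_xor, dec_cod] using mem_A5 h12
  · simpa only [dec_xor, dec_cod] using mem_A5 h13

theorem solB (xu xp xn xc : G) : ∃ al m g P C m2 m3 a2 g3 : G, P = xp + (al + m) ∧
    C = xc + (g + m) ∧ a2 = xu + al + (m3 + C) ∧ g3 = xn + g + (m2 + P) ∧
    A5 al ∧ A5 m ∧ A5 (al + m) ∧ A5 g ∧ A5 (g + m) ∧ A5 P ∧ A5 C ∧ A5 m2 ∧ A5 (m2 + P) ∧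
    A5 m3 ∧ A5 (m3 + C) ∧ A5 a2 ∧ A5 (a2 + m2) ∧ A5 g3 ∧ A5 (g3 + m3) := by
  obtain ⟨al, m, g, m2, m3, h⟩ := runB_all _ (cod_lt xu) _ (cod_lt xp) _ (cod_lt xn) _ (cod_lt xc)
  simp only [chkB, Bool.and_eq_true, fce_eq] at h
  obtain ⟨h1, h2, h3, h4, h5, h6, h7, h8, h9, h10, h11, h12, h13, h14, h15⟩ := h
  refine ⟨dec al, dec m, dec g, _, _, dec m2, dec m3, _, _, rfl, rfl, rfl, rfl,
    ?_, ?_, ?_, ?_, ?_, ?_, ?_, ?_, ?_, ?_, ?_, ?_, ?_, ?_, ?_⟩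
  · simpa only [dec_xor, dec_cod] using mem_A5 h1
  · simpa only [dec_xor, dec_cod] using mem_A5 h2
  · simpa only [dec_xor, dec_cod] using mem_A5 h3
  · simpa only [dec_xor, dec_cod] using mem_A5 h4
  · simpa only [dec_xor, dec_cod] using mem_A5 h5
  · simpa only [dec_xor, dec_cod] using mem_A5 h6
  · simpa only [dec_xor, dec_cod] using mem_A5 h7
  · simpa only [dec_xor, dec_cod] using mem_A5 h8
  · simpa only [dec_xor, dec_cod] using mem_A5 h9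
  · simpa only [dec_xor, dec_cod] using mem_A5 h10
  · simpa only [dec_xor, dec_cod] using mem_A5 h11
  · simpa only [dec_xor, dec_cod] using mem_A5 h12
  · simpa only [dec_xor, dec_cod] using mem_A5 h13
  · simpa only [dec_xor, dec_cod] using mem_A5 h14
  · simpa only [dec_xor, dec_cod] using mem_A5 h15

theorem solC (xu xp xq xr : G) : ∃ al m g P R m2 b3 m3 a2 : G, P = xp + (al + m) ∧
    R = xr + (g + m) ∧ b3 = xq + g + (m2 + P) ∧ a2 = xu + al + (m3 + b3) ∧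
    A5 al ∧ A5 m ∧ A5 (al + m) ∧ A5 g ∧ A5 (g + m) ∧ A5 P ∧ A5 R ∧ A5 m2 ∧ A5 (m2 + P) ∧
    A5 b3 ∧ A5 m3 ∧ A5 (m3 + R) ∧ A5 (m3 + b3) ∧ A5 a2 ∧ A5 (a2 + m2) := by
  obtain ⟨al, m, g, m2, m3, h⟩ := runC_all _ (cod_lt xu) _ (cod_lt xp) _ (cod_lt xq) _ (cod_lt xr)
  simp only [chkC, Bool.and_eq_true, fce_eq] at h
  obtain ⟨h1, h2, h3, h4, h5, h6, h7, h8, h9, h10, h11, h12, h13, h14, h15⟩ := h
  refine ⟨dec al, dec m, dec g, _, _, dec m2, _, dec m3, _, rfl, rfl, rfl, rfl,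
    ?_, ?_, ?_, ?_, ?_, ?_, ?_, ?_, ?_, ?_, ?_, ?_, ?_, ?_, ?_⟩
  · simpa only [dec_xor, dec_cod] using mem_A5 h1
  · simpa only [dec_xor, dec_cod] using mem_A5 h2
  · simpa only [dec_xor, dec_cod] using mem_A5 h3
  · simpa only [dec_xor, dec_cod] using mem_A5 h4
  · simpa only [dec_xor, dec_cod] using mem_A5 h5
  · simpa only [dec_xor, dec_cod] using mem_A5 h6
  · simpa only [dec_xor, dec_cod] using mem_A5 h7
  · simpa only [dec_xor, dec_cod] using mem_A5 h8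
  · simpa only [dec_xor, dec_cod] using mem_A5 h9
  · simpa only [dec_xor, dec_cod] using mem_A5 h10
  · simpa only [dec_xor, dec_cod] using mem_A5 h11
  · simpa only [dec_xor, dec_cod] using mem_A5 h12
  · simpa only [dec_xor, dec_cod] using mem_A5 h13
  · simpa only [dec_xor, dec_cod] using mem_A5 h14
  · simpa only [dec_xor, dec_cod] using mem_A5 h15

/-- the values around an edge -/
theorem qd {a m g : G} (ha : A5 a) (hm : A5 m) (ham : A5 (a + m)) (hg : A5 g) (hgm : A5 (g + m)) :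
    QD A5 ![a, a + m, g, g + m] := by
  have h : ∀ x y : G, x + (x + y) = y := by intro x y; rw [← add_assoc, two, zero_add]
  refine ⟨ha, ham, hg, hgm, ?_, ?_⟩
  · show A5 (a + (a + m))
    rw [h]; exact hm
  · show a + (a + m) = g + (g + m)
    rw [h, h]

theorem qd_of {a b c d : G} (ha : A5 a) (hb : A5 b) (hc : A5 c) (hd : A5 d) (hm : A5 (a + b))
    (h : a + b = c + d) : QD A5 ![a, b, c, d] := ⟨ha, hb, hc, hd, hm, h⟩

theorem f_s4 : ∀ a b : G, A5 a → A5 b → ∃ p, A5 p ∧ A5 (p + a) ∧ A5 (p + b) := by decide +kernel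

theorem f_c1 : ∀ r, A5 r → ∀ d1 d2 : Fin 4 → G, QD A5 d1 → QD A5 d2 → d1 0 = d2 0 →
    ∃ w ι ι' : G, ∃ e1 e2 : Fin 4 → G, A5 w ∧ A5 ι ∧ A5 ι' ∧ w + ι + ι' = 0 ∧ QD A5 e1 ∧
      QD A5 e2 ∧ w + e1 0 + e2 0 = 0 ∧ r + d1 2 = ι + e1 2 ∧ r + d2 2 = ι' + e2 2 ∧
      d1 1 + d2 3 = e1 1 + e2 3 ∧ d1 3 + d2 1 = e1 3 + e2 1 := by
  intro r hr d1 d2 hd1 hd2 h0
  obtain ⟨w, io, al, m, n, hn, h1, h2, h3, h4, h5, h6, h7, h8, h9, h10, h11, h12, h13⟩ :=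
    solA (r + d1 2) (r + d2 2) (d1 1 + d2 3)
  have q1 := hd1.eq
  have q2 := hd2.eq
  have c := c2
  refine ⟨w, io, w + io, ![al, al + m, r + d1 2 + io, r + d1 2 + io + m],
    ![w + al, w + al + n, r + d2 2 + (w + io), r + d2 2 + (w + io) + n], h1, h2, h3, ?_,
    qd h6 h8 h9 h4 h10, qd h7 h11 h12 h5 h13, ?_, ?_, ?_, ?_, ?_⟩
  · grind
  · show w + al + (w + al) = 0
    grind
  · show r + d1 2 = io + (r + d1 2 + io)
    grind
  · show r + d2 2 = w + io + (r + d2 2 + (w + io))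
    grind
  · show d1 1 + d2 3 = (al + m) + (r + d2 2 + (w + io) + n)
    grind
  · show d1 3 + d2 1 = (r + d1 2 + io + m) + (w + al + n)
    grind

theorem f_c2 : ∀ p q, A5 p → A5 q → ∀ d2 d3 : Fin 4 → G, QD A5 d2 → QD A5 d3 →
    ∃ e1 e2 e3 : Fin 4 → G, QD A5 e1 ∧ QD A5 e2 ∧ QD A5 e3 ∧
      p + d2 0 + d3 0 = e1 0 + e2 0 + e3 0 ∧ p + d2 3 = e1 1 + e2 3 ∧
      q + d2 2 + d3 2 = e1 2 + e2 2 + e3 2 ∧ q + d3 1 = e1 3 + e3 1 ∧
      d2 1 + d3 3 = e2 1 + e3 3 := by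
  intro p q hp hq d2 d3 hd2 hd3
  obtain ⟨al, m, g, P, C, m2, m3, a2, g3, eP, eC, ea, eg, h1, h2, h3, h4, h5, h6, h7, h8, h9, h10,
    h11, h12, h13, h14, h15⟩ := solB (p + d2 0 + d3 0) (p + d2 3) (q + d2 2 + d3 2) (q + d3 1)
  have q1 := hd2.eq
  have q2 := hd3.eq
  have c := c2
  refine ⟨![al, al + m, g, g + m], ![a2, a2 + m2, m2 + P, P], ![m3 + C, C, g3, g3 + m3],
    qd h1 h2 h3 h4 h5, qd_of h12 h13 h9 h6 ?_ ?_, qd_of h11 h7 h14 h15 ?_ ?_, ?_, ?_, ?_, ?_, ?_⟩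
  · have : a2 + (a2 + m2) = m2 := by grind
    rwa [this]
  · grind
  · have : m3 + C + C = m3 := by grind
    rwa [this]
  · grind
  · show p + d2 0 + d3 0 = al + a2 + (m3 + C)
    grind
  · show p + d2 3 = (al + m) + P
    grind
  · show q + d2 2 + d3 2 = g + (m2 + P) + g3
    grind
  · show q + d3 1 = (g + m) + C
    grind
  · show d2 1 + d3 3 = (a2 + m2) + (g3 + m3)
    grind

theorem f_c3 : ∀ p q, A5 p → A5 q → ∀ d2 d3 : Fin 4 → G, QD A5 d2 → QD A5 d3 →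
    ∃ e1 e2 e3 : Fin 4 → G, QD A5 e1 ∧ QD A5 e2 ∧ QD A5 e3 ∧
      p + d2 0 + d3 0 = e1 0 + e2 0 + e3 0 ∧ p + d2 3 = e1 1 + e2 3 ∧
      q + d2 2 + d3 1 = e1 2 + e2 2 + e3 1 ∧ q + d3 2 = e1 3 + e3 2 ∧
      d2 1 + d3 3 = e2 1 + e3 3 := by
  intro p q hp hq d2 d3 hd2 hd3
  obtain ⟨al, m, g, P, R, m2, b3, m3, a2, eP, eR, eb, ea, h1, h2, h3, h4, h5, h6, h7, h8, h9, h10,
    h11, h12, h13, h14, h15⟩ := solC (p + d2 0 + d3 0) (p + d2 3) (q + d2 2 + d3 1) (q + d3 2)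
  have q1 := hd2.eq
  have q2 := hd3.eq
  have c := c2
  refine ⟨![al, al + m, g, g + m], ![a2, a2 + m2, m2 + P, P], ![m3 + b3, b3, R, m3 + R],
    qd h1 h2 h3 h4 h5, qd_of h14 h15 h9 h6 ?_ ?_, qd_of h13 h10 h7 h12 ?_ ?_, ?_, ?_, ?_, ?_, ?_⟩
  · have : a2 + (a2 + m2) = m2 := by grind
    rwa [this]
  · grind
  · have : m3 + b3 + b3 = m3 := by grind
    rwa [this]
  · grind
  · show p + d2 0 + d3 0 = al + a2 + (m3 + b3)
    grind
  · show p + d2 3 = (al + m) + P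
    grind
  · show q + d2 2 + d3 1 = g + (m2 + P) + b3
    grind
  · show q + d3 2 = (g + m) + R
    grind
  · show d2 1 + d3 3 = (a2 + m2) + (m3 + R)
    grind

/-- two parts on the same four roots give all boundaries -/
theorem f_s (x0 x1 x2 : G) : ∃ e1 e2 : Fin 4 → G, QD A5 e1 ∧ QD A5 e2 ∧ e1 0 + e2 0 = x0 ∧
    e1 1 + e2 2 = x1 ∧ e1 2 + e2 1 = x2 ∧ e1 3 + e2 3 = x0 + x1 + x2 := by
  obtain ⟨al, m, g, h1, h2, h3, h4, h5, h6, h7, h8, h9, h10⟩ := solS x0 x1 x2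
  have c := c2
  refine ⟨![al, al + m, g, g + m], ![x0 + al, x2 + g, x1 + al + m, x0 + al + x2 + g + (x1 + al + m)],
    qd h1 h3 h4 h5 h6, qd_of h2 h7 h8 h10 ?_ ?_, ?_, ?_, ?_, ?_⟩
  · have : x0 + al + (x2 + g) = x0 + al + x2 + g := by ring
    rwa [this]
  · grind
  · show al + (x0 + al) = x0
    grind
  · show al + m + (x1 + al + m) = x1
    grind
  · show g + (x2 + g) = x2
    grind
  · show g + m + (x0 + al + x2 + g + (x1 + al + m)) = x0 + x1 + x2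
    grind

theorem f_p : ∃ t : Fin 15 → G, (∀ k, A5 (t k)) ∧
    ∀ i, bd Pool.Agent.TH499.TF.pp Pool.Agent.TH499.TF.pq t i = 0 :=
  ⟨fun k => dec (![1, 2, 3, 2, 3, 12, 4, 8, 5, 9, 6, 10, 6, 10, 12] k), by decide +kernel,
    by decide +kernel⟩

theorem facts5 : Facts A5 where
  alg := alg5
  s4 := f_s4
  c1 := f_c1
  c2 := f_c2
  c3 := f_c3
  h1 := by
    intro m1 g1 m2 g2 _ _ _ _ _ _
    obtain ⟨e1, e2, h1, h2, h3, h4, h5, h6⟩ := f_s 0 (m1 + g2) (g1 + m2)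
    refine ⟨e1, e2, h1, h2, h3, h4, h5, ?_⟩
    rw [h6]
    have c := CDC.c2
    grind
  h2 := by
    intro p q _ _
    obtain ⟨e1, e2, h1, h2, h3, h4, h5, h6⟩ := f_s p q q
    refine ⟨e1, e2, h1, h2, h3, h4, h5, ?_⟩
    rw [h6]
    have c := CDC.c2
    grind
  hp := f_p

end Pool.Agent.TH462.CDC
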